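import Mathlib
import Pool.Agent.U709.FF.Stm

/-!
# Project FF, package EIG (author helper818)
-/

set_option autoImplicit false

namespace Pool.Agent.U818.FF

open Matrix Polynomial Pool.Agent.U709.FF
open scoped NumberField IntermediateField

/-- a root of the characteristic polynomial of an invertible matrix over a finite field -/
theorem root_pow {k : Type} [Field k] [Finite k] {n : ℕ} (Y : GL (Fin n) k) {x : k}
    (hx : (Y : Matrix (Fin n) (Fin n) k).charpoly.eval x = 0) : x ^ orderOf Y = 1 := by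
  rw [Matrix.eval_charpoly] at hx
  obtain ⟨v, hv, hv0⟩ := Matrix.exists_mulVec_eq_zero_iff.2 hx
  rw [Matrix.sub_mulVec, sub_eq_zero] at hv0
  have hY : (Y : Matrix (Fin n) (Fin n) k) *ᵥ v = x • v := by
    rw [← hv0]
    simp
  have hj : ∀ j : ℕ, ((Y : Matrix (Fin n) (Fin n) k) ^ j) *ᵥ v = x ^ j • v := by
    intro j
    induction j with
    | zero => simp
    | succ j ih =>
      rw [pow_succ', ← Matrix.mulVec_mulVec, ih, Matrix.mulVec_smul, hY, smul_smul, pow_succ]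
  have h1 := hj (orderOf Y)
  have h2 : (Y : Matrix (Fin n) (Fin n) k) ^ orderOf Y = 1 := by
    rw [← Units.val_pow_eq_pow_val, pow_orderOf_eq_one, Units.val_one]
  rw [h2, Matrix.one_mulVec] at h1
  have h3 : (x ^ orderOf Y - 1) • v = 0 := by
    rw [sub_smul, one_smul, ← h1, sub_self]
  rcases smul_eq_zero.1 h3 with h | h
  · exact sub_eq_zero.1 h
  · exact absurd h hv

theorem ne_zero_of_root {n : ℕ} (y : GL (Fin n) ℤ) {R : Type} [CommRing R] [Nontrivial R]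
    (h : ((y : Matrix (Fin n) (Fin n) ℤ).charpoly.map (Int.castRingHom R)).eval 0 = 0) : False := by
  rw [← Matrix.charpoly_map, Matrix.eval_charpoly] at h
  have hu : IsUnit (y : Matrix (Fin n) (Fin n) ℤ).det :=
    (Matrix.isUnit_iff_isUnit_det _).1 y.isUnit
  rw [map_zero, zero_sub, Matrix.det_neg] at h
  have h2 : ((y : Matrix (Fin n) (Fin n) ℤ).map (Int.castRingHom R)).det =
      (Int.castRingHom R) (y : Matrix (Fin n) (Fin n) ℤ).det := by
    rw [RingHom.map_det]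
    rfl
  rw [h2] at h
  have h3 : IsUnit ((-1 : R) ^ Fintype.card (Fin n) *
      (Int.castRingHom R) (y : Matrix (Fin n) (Fin n) ℤ).det) :=
    (isUnit_one.neg.pow _).mul (hu.map _)
  rw [h] at h3
  exact not_isUnit_zero h3

theorem t_EIG (h : NF) : EIG := by
  intro n B y hy z hz
  set P : ℤ[X] := (y : Matrix (Fin n) (Fin n) ℤ).charpoly with hP
  have hPm : P.Monic := Matrix.charpoly_monic _
  have hPz : aeval z P = 0 := by
    have := hz
    rw [IsRoot.def, eval_map] at this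
    exact this
  have hzi : IsIntegral ℤ z := ⟨P, hPm, by rw [← aeval_def]; exact hPz⟩
  have hzQ : IsIntegral ℚ z := hzi.tower_top
  have : FiniteDimensional ℚ ℚ⟮z⟯ := IntermediateField.adjoin.finiteDimensional hzQ
  have : NumberField ℚ⟮z⟯ := ⟨⟩
  set x₀ : ℚ⟮z⟯ := IntermediateField.AdjoinSimple.gen ℚ z with hx₀
  have hx₀z : algebraMap ℚ⟮z⟯ ℂ x₀ = z := IntermediateField.AdjoinSimple.algebraMap_gen ℚ z
  have hx₀i : IsIntegral ℤ x₀ := by
    rw [← isIntegral_algebraMap_iff (B := ℂ) (algebraMap ℚ⟮z⟯ ℂ).injective, hx₀z]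
    exact hzi
  set x : 𝓞 ℚ⟮z⟯ := ⟨x₀, hx₀i⟩ with hx
  have hinj : Function.Injective (algebraMap (𝓞 ℚ⟮z⟯) ℚ⟮z⟯) :=
    NumberField.RingOfIntegers.coe_injective
  have hPx₀ : aeval x₀ P = 0 := by
    apply (algebraMap ℚ⟮z⟯ ℂ).injective
    rw [map_zero, ← aeval_algebraMap_apply, hx₀z]
    exact hPz
  have hPx : aeval x P = 0 := by
    apply hinj
    rw [map_zero, ← aeval_algebraMap_apply]
    exact hPx₀
  have hPx' : (P.map (Int.castRingHom (𝓞 ℚ⟮z⟯))).eval x = 0 := by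
    rw [eval_map]
    exact hPx
  have hx0 : x ≠ 0 := by
    intro h0
    rw [h0] at hPx'
    exact ne_zero_of_root y hPx'
  obtain ⟨t, ht, hxt⟩ := h ℚ⟮z⟯ x hx0 B.factorial (Nat.factorial_pos B) (by
    intro I hI s hs hxs
    let _ : Field (𝓞 ℚ⟮z⟯ ⧸ I) := Ideal.Quotient.field I
    have hIb : I ≠ ⊥ := Ring.ne_bot_of_isMaximal_of_not_isField hI
      (NumberField.RingOfIntegers.not_isField ℚ⟮z⟯)
    have : Finite (𝓞 ℚ⟮z⟯ ⧸ I) := Ideal.finiteQuotientOfFreeOfNeBot I hIb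
    set xb : 𝓞 ℚ⟮z⟯ ⧸ I := Ideal.Quotient.mk I x with hxb
    set Y : GL (Fin n) (𝓞 ℚ⟮z⟯ ⧸ I) :=
      GeneralLinearGroup.map (Int.castRingHom (𝓞 ℚ⟮z⟯ ⧸ I)) y with hY
    have hroot : (Y : Matrix (Fin n) (Fin n) (𝓞 ℚ⟮z⟯ ⧸ I)).charpoly.eval xb = 0 := by
      have h1 : (Y : Matrix (Fin n) (Fin n) (𝓞 ℚ⟮z⟯ ⧸ I)) =
          (y : Matrix (Fin n) (Fin n) ℤ).map (Int.castRingHom (𝓞 ℚ⟮z⟯ ⧸ I)) := rfl
      rw [h1, Matrix.charpoly_map, ← hP]
      have h2 : (P.map (Int.castRingHom (𝓞 ℚ⟮z⟯ ⧸ I))) =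
          (P.map (Int.castRingHom (𝓞 ℚ⟮z⟯))).map (Ideal.Quotient.mk I) := by
        rw [Polynomial.map_map]
        congr 1
      rw [h2, eval_map, hxb, Polynomial.eval₂_at_apply, hPx', map_zero]
    have hord := root_pow Y hroot
    have hYpos : 0 < orderOf Y := orderOf_pos Y
    have ht1 : orderOf xb ∣ orderOf Y := orderOf_dvd_of_pow_eq_one hord
    have ht2 : orderOf xb ∣ s := orderOf_dvd_of_pow_eq_one hxs
    have htpos : 0 < orderOf xb := Nat.pos_of_dvd_of_pos ht1 hYpos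
    by_contra hne
    have ht3 : orderOf xb ≠ 1 := fun h1 => hne (orderOf_eq_one_iff.1 h1)
    obtain ⟨q, hq, hqt⟩ := Nat.exists_prime_and_dvd ht3
    have hqB : B < q := by
      by_contra hle
      have h1 : q ∣ B.factorial := (hq.dvd_factorial).2 (not_lt.1 hle)
      have h2 : Nat.Coprime q B.factorial := Nat.Coprime.coprime_dvd_left (hqt.trans ht2) hs
      have h3 := Nat.eq_one_of_dvd_coprimes h2 dvd_rfl h1
      exact hq.one_lt.ne' h3
    have hq0 : ((q : ℕ) : 𝓞 ℚ⟮z⟯ ⧸ I) = 0 := by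
      by_contra hq0
      exact hy (𝓞 ℚ⟮z⟯ ⧸ I) q hq hqB hq0 (hqt.trans ht1)
    have : Fact q.Prime := ⟨hq⟩
    have : CharP (𝓞 ℚ⟮z⟯ ⧸ I) q := (CharP.charP_iff_prime_eq_zero hq).2 hq0
    obtain ⟨u, hu⟩ := hqt
    have hu0 : 0 < u := by
      rcases Nat.eq_zero_or_pos u with h0 | h0
      · rw [h0, mul_zero] at hu
        omega
      · exact h0
    have h4 : (xb ^ u - 1) ^ q = 0 := by
      rw [sub_pow_char, ← pow_mul, mul_comm u q, ← hu, pow_orderOf_eq_one, one_pow, sub_self]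
    have h5 : xb ^ u = 1 := sub_eq_zero.1 (pow_eq_zero_iff hq.ne_zero |>.1 h4)
    have h6 := orderOf_dvd_of_pow_eq_one h5
    have h7 := Nat.le_of_dvd hu0 h6
    have h8 := hq.two_le
    nlinarith)
  refine ⟨t, ht, ?_⟩
  have h1 : algebraMap ℚ⟮z⟯ ℂ (algebraMap (𝓞 ℚ⟮z⟯) ℚ⟮z⟯ (x ^ t)) = 1 := by
    rw [hxt, map_one, map_one]
  rw [map_pow, map_pow] at h1
  have h2 : algebraMap (𝓞 ℚ⟮z⟯) ℚ⟮z⟯ x = x₀ := rfl
  rw [h2, hx₀z] at h1
  exact h1

end Pool.Agent.U818.FF
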